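import Pool.Agent.TH404.AK.Sdc3

/-!
# The projection form with exponent 1.669587

There are finitely many slopes `r ≠ -1` such that every finite `A ⊂ ℤ × ℤ` satisfies
`|π₋₁(A)| ≤ max (|π_∞(A)|, max_r |π_r(A)|) ^ 1.669587`.
-/

set_option autoImplicit false

namespace Pool.Agent.Results.MP_169869_co.ChainSumsDifferences

theorem result :
    ∃ S : Finset ℚ, (-1 : ℚ) ∉ S ∧
      ∀ A : Finset (ℤ × ℤ),
        ((A.image (fun p : ℤ × ℤ => (p.1 : ℚ) + (-1) * (p.2 : ℚ))).card : ℝ) ≤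
          (max ((A.image (fun p : ℤ × ℤ => (p.2 : ℚ))).card : ℝ)
              ((S.sup (fun r : ℚ =>
                  (A.image (fun p : ℤ × ℤ => (p.1 : ℚ) + r * (p.2 : ℚ))).card) : ℕ) : ℝ))
            ^ (1.669587 : ℝ) := by
  obtain ⟨S, hS, h⟩ := Pool.Agent.TH404.AK.sdc3
  refine ⟨S, hS, fun A => ?_⟩
  have h1 := h A
  have h2 : (1.669587 : ℝ) = 1669587 / 1000000 := by norm_num
  rw [h2]
  exact h1

end Pool.Agent.Results.MP_169869_co.ChainSumsDifferences
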