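import Mathlib
import Pool.Agent.TH539.MQPoly
import Pool.Agent.TH539.MQSharp

set_option autoImplicit false

/-! # The arithmetic Kakeya conjecture for sets whose coordinates are short sums of S-units

Let `P` be a finite set of primes. A number is called short of height `H` if it is a sum of `k`
terms `c u` with `c` rational of height at most `H` and `u = ± ∏_{p ∈ P} p ^ e_p`, where the
exponents `e_p` are arbitrary integers. For sets `A` of points with coordinates of height `H` we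
have `|A| ^ |S| ≤ C H ^ C |π_∞(A)| ∏ |π_r(A)|`. Hence the conjecture holds for all `A` whose points
have coordinates of height `H_0 |A| ^ δ`. For every finite set `S` of slopes the exponent
`1 + 1 / |S|` is optimal.

Proof. Theorem on vanishing sums of `S`-units (from the `S`-adic subspace theorem) and Shearer's
inequality: with as few blocks as possible a point is a sum `∑ λ_b w_b` with vectors `w_b` of small
height; `π_r` determines, up to few choices, the `λ_b` with `π_r(w_b) ≠ 0`, and `π_r(w_b) = 0` for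
at most one slope. -/

open Finset

namespace Pool.Agent.Results.MP_169869_co.MultiplicativeSets

/-- the projection `π_r(A) = {x + r y : (x, y) ∈ A}` -/
def proj (r : ℚ) (A : Finset (ℤ × ℤ)) : Finset ℚ :=
  A.image (fun p : ℤ × ℤ => (p.1 : ℚ) + r * (p.2 : ℚ))

/-- the projection `π_∞(A) = {y : (x, y) ∈ A}` -/
def projInf (A : Finset (ℤ × ℤ)) : Finset ℚ := A.image (fun p : ℤ × ℤ => (p.2 : ℚ))

/-- the largest size of a projection of `A` with slope `∞` or in `S` -/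
def big (S : Finset ℚ) (A : Finset (ℤ × ℤ)) : ℕ :=
  max (projInf A).card (S.sup fun r => (proj r A).card)

/-- `u = ± ∏_{p ∈ P} p ^ e_p` with integral exponents of any sign -/
def IsSUnit (P : Finset ℕ) (u : ℚ) : Prop :=
  ∃ (σ : ℤ) (e : ℕ → ℤ), (σ = 1 ∨ σ = -1) ∧ u = σ * ∏ p ∈ P, (p : ℚ) ^ (e p)

/-- the integer `x` is a sum of `k` terms `c u`, where `u` is as in `IsSUnit P` and the numerator
and the denominator of `c` are at most `H` -/
def Short (P : Finset ℕ) (H : ℝ) (k : ℕ) (x : ℤ) : Prop :=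
  ∃ c u : Fin k → ℚ, (∀ i, |((c i).num : ℝ)| ≤ H ∧ ((c i).den : ℝ) ≤ H ∧ IsSUnit P (u i)) ∧
    (x : ℚ) = ∑ i, c i * u i

lemma Short.mono {P : Finset ℕ} {H H' : ℝ} {k : ℕ} {x : ℤ} (h : Short P H k x) (hH : H ≤ H') :
    Short P H' k x := by
  obtain ⟨c, u, h1, h2⟩ := h
  exact ⟨c, u, fun i => ⟨(h1 i).1.trans hH, (h1 i).2.1.trans hH, (h1 i).2.2⟩, h2⟩

lemma in_box {H : ℝ} {x : ℚ} (h1 : |(x.num : ℝ)| ≤ H) (h2 : (x.den : ℝ) ≤ H) :
    x ∈ Pool.Agent.TH539.MQ.box ⌊H⌋₊ := by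
  refine Pool.Agent.TH539.MQ.mem_box ?_ ?_
  · have h3 : ((x.num.natAbs : ℕ) : ℝ) ≤ H := by
      rw [Nat.cast_natAbs]
      push_cast
      exact h1
    have h4 : x.num.natAbs ≤ ⌊H⌋₊ := Nat.le_floor h3
    have h5 : ((x.num.natAbs : ℕ) : ℝ) ≤ (⌊H⌋₊ : ℝ) := by exact_mod_cast h4
    rw [Nat.cast_natAbs] at h5
    push_cast at h5
    exact h5
  · exact_mod_cast Nat.le_floor h2

lemma toSU (P : Finset ℕ) {x : ℚ} (h : IsSUnit P x) :
    Pool.Agent.TH551.SU.IsSU (fun i : Fin P.card => ((P.equivFin.symm i : P) : ℕ)) x := by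
  obtain ⟨σ, e, hσ, rfl⟩ := h
  refine ⟨σ, fun i => e ((P.equivFin.symm i : P) : ℕ), hσ, ?_⟩
  congr 1
  rw [Equiv.prod_comp P.equivFin.symm (fun p : P => (((p : ℕ) : ℚ)) ^ (e p)),
    Finset.prod_coe_sort P (fun p => ((p : ℚ)) ^ (e p))]

/-- the inequality -/
theorem part1 (P : Finset ℕ) (hP : ∀ p ∈ P, p.Prime) (k : ℕ) (S : Finset ℚ) :
    ∃ C : ℕ, ∀ (H : ℝ) (A : Finset (ℤ × ℤ)), 1 ≤ H → A.Nonempty →
      (∀ z ∈ A, Short P H k z.1 ∧ Short P H k z.2) →
      (A.card : ℝ) ^ S.card ≤ C * H ^ C * ((projInf A).card * ∏ r ∈ S, ((proj r A).card : ℝ)) := by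
  classical
  have hb : ∀ v : Fin P.card, ((P.equivFin.symm v : P) : ℕ).Prime :=
    fun v => hP _ (P.equivFin.symm v).2
  have hbi : Function.Injective (fun i : Fin P.card => ((P.equivFin.symm i : P) : ℕ)) :=
    Subtype.val_injective.comp P.equivFin.symm.injective
  let T : Finset (ℚ × ℚ) := insert ((0 : ℚ), (1 : ℚ)) (S.image fun r => ((1 : ℚ), r))
  have hnot : ((0 : ℚ), (1 : ℚ)) ∉ S.image (fun r => ((1 : ℚ), r)) := by
    intro h
    obtain ⟨r, _, hr⟩ := Finset.mem_image.1 h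
    have := congrArg Prod.fst hr
    norm_num at this
  have hinj : Function.Injective (fun r : ℚ => ((1 : ℚ), r)) := fun a b hab =>
    congrArg Prod.snd hab
  have hTcard : T.card = S.card + 1 := by
    rw [Finset.card_insert_of_notMem hnot, Finset.card_image_of_injective _ hinj]
  have hT : ∀ p ∈ T, ∀ q ∈ T, p ≠ q → p.1 * q.2 - p.2 * q.1 ≠ 0 := by
    intro p hp q hq hpq
    rcases Finset.mem_insert.1 hp with rfl | hp
    · rcases Finset.mem_insert.1 hq with rfl | hq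
      · exact absurd rfl hpq
      · obtain ⟨r, _, rfl⟩ := Finset.mem_image.1 hq
        norm_num
    · obtain ⟨r, _, rfl⟩ := Finset.mem_image.1 hp
      rcases Finset.mem_insert.1 hq with rfl | hq
      · norm_num
      · obtain ⟨r', _, rfl⟩ := Finset.mem_image.1 hq
        intro h
        apply hpq
        simp only [one_mul, mul_one] at h
        rw [Prod.mk.injEq]
        exact ⟨rfl, by linarith⟩
  obtain ⟨C, hC⟩ := Pool.Agent.TH539.MQ.poly
    (fun i : Fin P.card => ((P.equivFin.symm i : P) : ℕ)) hb hbi (Fin k ⊕ Fin k) T hT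
  refine ⟨C, fun H A hH hA hshort => ?_⟩
  let ι : ℤ × ℤ → ℚ × ℚ := fun z => ((z.1 : ℚ), (z.2 : ℚ))
  have hι : Function.Injective ι := by
    intro z z' hz
    have h1 := congrArg Prod.fst hz
    have h2 := congrArg Prod.snd hz
    simp only [ι] at h1 h2
    exact Prod.ext (by exact_mod_cast h1) (by exact_mod_cast h2)
  have hfl : 1 ≤ ⌊H⌋₊ := Nat.le_floor (by exact_mod_cast hH)
  have h1 := hC ⌊H⌋₊ hfl (A.image ι) (hA.image ι) (by
    intro z hz
    obtain ⟨y, hy, rfl⟩ := Finset.mem_image.1 hz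
    obtain ⟨⟨c, u, h2, h3⟩, ⟨c', u', h4, h5⟩⟩ := hshort y hy
    refine ⟨Sum.elim u u', Sum.elim (fun i => (c i, 0)) (fun i => (0, c' i)), ?_, ?_⟩
    · rintro (i | i)
      · exact ⟨toSU P (h2 i).2.2, in_box (h2 i).1 (h2 i).2.1,
          Pool.Agent.TH539.MQ.zero_mem_box hfl⟩
      · exact ⟨toSU P (h4 i).2.2, Pool.Agent.TH539.MQ.zero_mem_box hfl,
          in_box (h4 i).1 (h4 i).2.1⟩
    · rw [Fintype.sum_sum_type]
      simp only [Sum.elim_inl, Sum.elim_inr, ι]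
      refine Prod.ext ?_ ?_
      · rw [Prod.fst_add, Prod.fst_sum, Prod.fst_sum]
        simp only [Prod.smul_mk, smul_eq_mul, mul_zero, Finset.sum_const_zero, add_zero]
        rw [h3]
        exact Finset.sum_congr rfl fun i _ => mul_comm _ _
      · rw [Prod.snd_add, Prod.snd_sum, Prod.snd_sum]
        simp only [Prod.smul_mk, smul_eq_mul, mul_zero, Finset.sum_const_zero, zero_add]
        rw [h5]
        exact Finset.sum_congr rfl fun i _ => mul_comm _ _)
  rw [Finset.card_image_of_injective _ hι, hTcard, Nat.add_sub_cancel,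
    Finset.prod_insert hnot, Finset.prod_image (fun a _ b _ hab => hinj hab)] at h1
  have h2 : (A.image ι).image (Pool.Agent.TH539.MQ.lf ((0 : ℚ), (1 : ℚ))) = projInf A := by
    rw [Finset.image_image, projInf]
    congr 1
    funext z
    simp [Pool.Agent.TH539.MQ.lf, ι]
  have h3 : ∀ r : ℚ, (A.image ι).image (Pool.Agent.TH539.MQ.lf ((1 : ℚ), r)) = proj r A := by
    intro r
    rw [Finset.image_image, proj]
    congr 1
    funext z
    simp [Pool.Agent.TH539.MQ.lf, ι]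
  rw [h2] at h1
  simp only [h3] at h1
  have h4 : (A.card : ℝ) ^ S.card ≤
      (C * (⌊H⌋₊ : ℝ) ^ C) * ((projInf A).card * ∏ r ∈ S, ((proj r A).card : ℝ)) := by
    exact_mod_cast h1
  refine h4.trans (mul_le_mul_of_nonneg_right ?_ (mul_nonneg (Nat.cast_nonneg _)
    (Finset.prod_nonneg fun _ _ => Nat.cast_nonneg _)))
  exact mul_le_mul_of_nonneg_left
    (pow_le_pow_left₀ (Nat.cast_nonneg _) (Nat.floor_le (by linarith)) _) (Nat.cast_nonneg _)

lemma analytic (C s : ℕ) (ε γ δ H₁ a X P : ℝ) (hs : 1 ≤ s) (hX : 1 ≤ X) (ha : 1 ≤ a)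
    (hγ : γ = s * ε - 1) (hδ : 0 < δ) (hδC : 2 * δ * C ≤ γ / 2) (hH : 1 ≤ H₁)
    (haX : a ≤ X ^ (2 : ℝ)) (hthr : (C : ℝ) * H₁ ^ C ≤ X ^ (γ / 2)) (hP0 : 0 ≤ P)
    (hP : P ≤ X * X ^ s) (h : a ^ s ≤ C * (H₁ * a ^ δ) ^ C * P) : a ≤ X ^ (1 + ε) := by
  have hXp : (0 : ℝ) < X := by linarith
  have hap : (0 : ℝ) < a := by linarith
  have hHp : (0 : ℝ) < H₁ := by linarith
  have hHC : (H₁ * a ^ δ) ^ C ≤ H₁ ^ C * X ^ (γ / 2) := by
    rw [mul_pow]
    refine mul_le_mul_of_nonneg_left ?_ (by positivity)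
    calc (a ^ δ) ^ C ≤ ((X ^ (2 : ℝ)) ^ δ) ^ C :=
          pow_le_pow_left₀ (by positivity) (Real.rpow_le_rpow (by positivity) haX hδ.le) _
      _ = X ^ (2 * δ * C) := by
          rw [← Real.rpow_mul hXp.le, ← Real.rpow_natCast (X ^ (2 * δ)) C,
            ← Real.rpow_mul hXp.le]
      _ ≤ X ^ (γ / 2) := Real.rpow_le_rpow_of_exponent_le hX hδC
  have h6 : a ^ s ≤ (X ^ (1 + ε)) ^ s := by
    calc a ^ s ≤ C * (H₁ * a ^ δ) ^ C * P := h
      _ ≤ (C * (H₁ ^ C * X ^ (γ / 2))) * (X * X ^ s) := by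
          refine mul_le_mul (mul_le_mul_of_nonneg_left hHC (by positivity)) hP hP0
            (by positivity)
      _ = (C * H₁ ^ C) * X ^ (γ / 2) * (X * X ^ s) := by ring
      _ ≤ X ^ (γ / 2) * X ^ (γ / 2) * (X * X ^ s) := by
          refine mul_le_mul_of_nonneg_right (mul_le_mul_of_nonneg_right hthr
            (by positivity)) (by positivity)
      _ = (X ^ (1 + ε)) ^ s := by
          rw [← Real.rpow_natCast (X ^ (1 + ε)) s, ← Real.rpow_mul hXp.le,
            ← Real.rpow_natCast X s, ← Real.rpow_add hXp]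
          nth_rewrite 2 [← Real.rpow_one X]
          rw [← Real.rpow_add hXp, ← Real.rpow_add hXp]
          congr 1
          rw [hγ]
          ring
  exact le_of_pow_le_pow_left₀ (by omega) (by positivity) h6

lemma card_le_sq (A : Finset (ℤ × ℤ)) (S : Finset ℚ) {r : ℚ} (hr : r ∈ S) :
    A.card ≤ big S A ^ 2 := by
  classical
  have h1 : A.card ≤ ((proj r A) ×ˢ (projInf A)).card := by
    refine Finset.card_le_card_of_injOn
      (fun z : ℤ × ℤ => ((z.1 : ℚ) + r * (z.2 : ℚ), (z.2 : ℚ))) ?_ ?_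
    · intro z hz
      exact Finset.mem_coe.2 (Finset.mem_product.2 ⟨Finset.mem_image.2 ⟨z, hz, rfl⟩,
        Finset.mem_image.2 ⟨z, hz, rfl⟩⟩)
    · intro z _ z' _ h
      rw [Prod.mk.injEq] at h
      obtain ⟨h2, h3⟩ := h
      rw [h3] at h2
      have h4 : (z.1 : ℚ) = z'.1 := by linarith
      exact Prod.ext (by exact_mod_cast h4) (by exact_mod_cast h3)
  rw [Finset.card_product] at h1
  have h2 : (proj r A).card ≤ big S A :=
    (Finset.le_sup (f := fun r => (proj r A).card) hr).trans (le_max_right _ _)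
  have h3 : (projInf A).card ≤ big S A := le_max_left _ _
  calc A.card ≤ (proj r A).card * (projInf A).card := h1
    _ ≤ big S A * big S A := Nat.mul_le_mul h2 h3
    _ = big S A ^ 2 := by ring

lemma big_mono {S S' : Finset ℚ} (h : S ⊆ S') (A : Finset (ℤ × ℤ)) : big S A ≤ big S' A :=
  max_le_max le_rfl (Finset.sup_mono h)

/-- with more than `|A| ^ 2` slopes some projection is injective on `A` -/
lemma exists_inj (A : Finset (ℤ × ℤ)) (S : Finset ℚ) (h : A.card ^ 2 < S.card) :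
    A.card ≤ big S A := by
  classical
  by_contra hcon
  have h1 : ∀ r ∈ S, ∃ q : (ℤ × ℤ) × (ℤ × ℤ), q ∈ A ×ˢ A ∧ q.1 ≠ q.2 ∧
      (q.1.1 : ℚ) + r * q.1.2 = q.2.1 + r * q.2.2 := by
    intro r hr
    by_contra hno
    push Not at hno
    apply hcon
    have h2 : (proj r A).card = A.card := by
      refine Finset.card_image_of_injOn ?_
      intro z hz z' hz' hzz
      by_contra hne
      exact hno (z, z') (Finset.mem_product.2 ⟨hz, hz'⟩) hne hzz
    rw [← h2]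
    exact (Finset.le_sup (f := fun r => (proj r A).card) hr).trans (le_max_right _ _)
  choose! q hq using h1
  have h2 : S.card ≤ (A ×ˢ A).card := by
    refine Finset.card_le_card_of_injOn q (fun r hr => (hq r hr).1) ?_
    intro r hr r' hr' hrr
    obtain ⟨_, h3, h4⟩ := hq r hr
    obtain ⟨_, _, h5⟩ := hq r' hr'
    rw [← hrr] at h5
    by_cases hy : ((q r).1.2 : ℚ) = (q r).2.2
    · exfalso
      apply h3
      rw [hy] at h4
      have h6 : ((q r).1.1 : ℚ) = (q r).2.1 := by linarith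
      exact Prod.ext (by exact_mod_cast h6) (by exact_mod_cast hy)
    · have h7 : (r - r') * (((q r).1.2 : ℚ) - (q r).2.2) = 0 := by linear_combination h4 - h5
      rcases mul_eq_zero.1 h7 with h8 | h8
      · linarith
      · exact absurd (by linarith) hy
  rw [Finset.card_product] at h2
  nlinarith [h2, h]

/-- the conjecture for sets with short coordinates -/
theorem part2 (P : Finset ℕ) (hP : ∀ p ∈ P, p.Prime) (k : ℕ) (H₀ ε : ℝ) (hε : 0 < ε) :
    ∃ (S : Finset ℚ) (δ : ℝ), (-1 : ℚ) ∉ S ∧ 0 < δ ∧ ∀ A : Finset (ℤ × ℤ),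
      (∀ z ∈ A, Short P (H₀ * (A.card : ℝ) ^ δ) k z.1 ∧ Short P (H₀ * (A.card : ℝ) ^ δ) k z.2) →
      ((proj (-1) A).card : ℝ) ≤ A.card ∧ (A.card : ℝ) ≤ (big S A : ℝ) ^ (1 + ε) := by
  classical
  obtain ⟨s, hs⟩ := exists_nat_gt (1 / ε)
  have hs0 : (0 : ℝ) < s := lt_trans (by positivity) hs
  have hs1 : 1 ≤ s := by exact_mod_cast hs0
  let R : ℕ → Finset ℚ := fun n => (Finset.range n).image (fun i : ℕ => (i : ℚ))
  have hRcard : ∀ n, (R n).card = n := by
    intro n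
    rw [Finset.card_image_of_injective _ Nat.cast_injective, Finset.card_range]
  have hRneg : ∀ n, (-1 : ℚ) ∉ R n := by
    intro n h
    obtain ⟨i, _, hi⟩ := Finset.mem_image.1 h
    have : (0 : ℚ) ≤ i := Nat.cast_nonneg i
    linarith
  obtain ⟨C, hC⟩ := part1 P hP k (R s)
  obtain ⟨γ, hγe⟩ : ∃ γ : ℝ, γ = s * ε - 1 := ⟨_, rfl⟩
  have hγ : 0 < γ := by
    have := (div_lt_iff₀ hε).1 hs
    linarith
  obtain ⟨H₁, hH₁e⟩ : ∃ H₁ : ℝ, H₁ = max 1 H₀ := ⟨_, rfl⟩
  have hH1 : 1 ≤ H₁ := hH₁e ▸ le_max_left _ _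
  have hH0 : H₀ ≤ H₁ := hH₁e ▸ le_max_right _ _
  have hC1 : (0 : ℝ) < 4 * ((C : ℝ) + 1) := by positivity
  obtain ⟨δ, hδe⟩ : ∃ δ : ℝ, δ = γ / (4 * ((C : ℝ) + 1)) := ⟨_, rfl⟩
  have hδ : 0 < δ := hδe ▸ div_pos hγ hC1
  have hδC : 2 * δ * C ≤ γ / 2 := by
    have h1 : δ * (4 * ((C : ℝ) + 1)) = γ := by
      rw [hδe]
      exact div_mul_cancel₀ _ hC1.ne'
    nlinarith
  -- a threshold
  obtain ⟨N, hN⟩ : ∃ N : ℕ, ∀ x : ℕ, N ≤ x → (C : ℝ) * H₁ ^ C ≤ (x : ℝ) ^ (γ / 2) := by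
    have h1 : Filter.Tendsto (fun x : ℕ => (x : ℝ) ^ (γ / 2)) Filter.atTop Filter.atTop :=
      (tendsto_rpow_atTop (by linarith)).comp tendsto_natCast_atTop_atTop
    obtain ⟨N, hN⟩ := Filter.eventually_atTop.1 (h1.eventually_ge_atTop ((C : ℝ) * H₁ ^ C))
    exact ⟨N, hN⟩
  refine ⟨R (max s (N ^ 4 + 1)), δ, hRneg _, hδ, fun A hA => ⟨?_, ?_⟩⟩
  · exact_mod_cast Finset.card_image_le
  rcases A.eq_empty_or_nonempty with rfl | hne
  · rw [Finset.card_empty, Nat.cast_zero]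
    exact Real.rpow_nonneg (Nat.cast_nonneg _) _
  have hcard1 : 1 ≤ A.card := Finset.card_pos.2 hne
  have hcard1r : (1 : ℝ) ≤ A.card := by exact_mod_cast hcard1
  have hsub : R s ⊆ R (max s (N ^ 4 + 1)) := by
    refine Finset.image_subset_image (Finset.range_subset_range.2 (le_max_left _ _))
  rcases Nat.lt_or_ge (N ^ 2) A.card with hbig | hsmall
  · -- large sets
    have h0s : (0 : ℚ) ∈ R s := Finset.mem_image.2 ⟨0, Finset.mem_range.2 (by omega), by simp⟩
    have h1 := card_le_sq A (R s) h0s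
    have h2 : N ≤ big (R s) A := by
      by_contra hlt
      push Not at hlt
      have : big (R s) A ^ 2 ≤ N ^ 2 := Nat.pow_le_pow_left hlt.le 2
      omega
    set X := big (R s) A with hX
    have hX1 : 1 ≤ X := by
      by_contra hlt
      have : X = 0 := by omega
      rw [this] at h1
      omega
    have hXr : (1 : ℝ) ≤ X := by exact_mod_cast hX1
    have hXp : (0 : ℝ) < X := by linarith
    have hAδ : (1 : ℝ) ≤ (A.card : ℝ) ^ δ := Real.one_le_rpow hcard1r hδ.le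
    have hH : 1 ≤ H₁ * (A.card : ℝ) ^ δ := by nlinarith
    have hle : H₀ * (A.card : ℝ) ^ δ ≤ H₁ * (A.card : ℝ) ^ δ :=
      mul_le_mul_of_nonneg_right hH0 (by linarith)
    have h3 := hC (H₁ * (A.card : ℝ) ^ δ) A hH hne
      (fun z hz => ⟨(hA z hz).1.mono hle, (hA z hz).2.mono hle⟩)
    rw [hRcard] at h3
    have h4 : ((projInf A).card : ℝ) * ∏ r ∈ R s, ((proj r A).card : ℝ) ≤ X * (X : ℝ) ^ s := by
      have h5 : (projInf A).card * ∏ r ∈ R s, (proj r A).card ≤ X * X ^ s := by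
        refine Nat.mul_le_mul (le_max_left _ _) ?_
        calc ∏ r ∈ R s, (proj r A).card ≤ ∏ _r ∈ R s, X :=
              Finset.prod_le_prod' fun r hr =>
                (Finset.le_sup (f := fun r => (proj r A).card) hr).trans (le_max_right _ _)
          _ = X ^ s := by rw [Finset.prod_const, hRcard]
      exact_mod_cast h5
    have h5 : (A.card : ℝ) ≤ (X : ℝ) ^ (2 : ℝ) := by
      rw [Real.rpow_two]
      exact_mod_cast h1
    have h7 : (A.card : ℝ) ≤ (X : ℝ) ^ (1 + ε) :=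
      analytic C s ε γ δ H₁ _ _ _ hs1 hXr hcard1r hγe hδ hδC hH1 h5 (hN X h2)
        (mul_nonneg (Nat.cast_nonneg _) (Finset.prod_nonneg fun _ _ => Nat.cast_nonneg _)) h4 h3
    refine h7.trans (Real.rpow_le_rpow hXp.le ?_ (by linarith))
    exact_mod_cast big_mono hsub A
  · -- small sets
    have h1 : A.card ^ 2 < (R (max s (N ^ 4 + 1))).card := by
      rw [hRcard]
      have h2 : A.card ^ 2 ≤ (N ^ 2) ^ 2 := Nat.pow_le_pow_left hsmall 2
      have h3 : (N ^ 2) ^ 2 = N ^ 4 := by ring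
      have h4 := le_max_right s (N ^ 4 + 1)
      omega
    have h2 := exists_inj A _ h1
    have h3 : (1 : ℝ) ≤ (big (R (max s (N ^ 4 + 1))) A : ℝ) := by exact_mod_cast hcard1.trans h2
    calc (A.card : ℝ) ≤ (big (R (max s (N ^ 4 + 1))) A : ℝ) := by exact_mod_cast h2
      _ = (big (R (max s (N ^ 4 + 1))) A : ℝ) ^ (1 : ℝ) := (Real.rpow_one _).symm
      _ ≤ _ := Real.rpow_le_rpow_of_exponent_le h3 (by linarith)

lemma short_two (S : Finset ℚ) (H : ℝ) (hH : 1 ≤ H) (d : ℚ → ℤ) (hd : ∀ r ∈ S, |(d r : ℝ)| ≤ H)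
    (d0 : ℤ) (hd0 : |(d0 : ℝ)| ≤ H) (e : ℕ) (f : ℚ → ℕ) (x : ℤ)
    (hx : x = d0 * 2 ^ e + ∑ r ∈ S, d r * 2 ^ (f r)) : Short {2} H (S.card + 1) x := by
  classical
  have hpow : ∀ n : ℕ, IsSUnit {2} ((2 : ℚ) ^ n) := by
    intro n
    refine ⟨1, fun _ => n, Or.inl rfl, ?_⟩
    rw [Finset.prod_singleton, zpow_natCast]
    norm_num
  refine ⟨Fin.cons (d0 : ℚ) (fun i => ((d ((S.equivFin.symm i : S) : ℚ) : ℤ) : ℚ)),
    Fin.cons ((2 : ℚ) ^ e) (fun i => (2 : ℚ) ^ (f ((S.equivFin.symm i : S) : ℚ))), ?_, ?_⟩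
  · intro i
    refine Fin.cases ?_ (fun j => ?_) i
    · simp only [Fin.cons_zero, Rat.num_intCast, Rat.den_intCast]
      exact ⟨hd0, by simpa using hH, hpow e⟩
    · simp only [Fin.cons_succ, Rat.num_intCast, Rat.den_intCast]
      exact ⟨hd _ (S.equivFin.symm j).2, by simpa using hH, hpow _⟩
  · rw [Fin.sum_univ_succ]
    simp only [Fin.cons_zero, Fin.cons_succ]
    rw [Equiv.sum_comp S.equivFin.symm (fun p : S => (((d (p : ℚ)) : ℤ) : ℚ) * 2 ^ (f (p : ℚ))),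
      Finset.sum_coe_sort S (fun p => ((d p : ℤ) : ℚ) * 2 ^ (f p)), hx]
    push_cast
    rfl

/-- the exponent is optimal -/
theorem part3 (S : Finset ℚ) (hS : (-1 : ℚ) ∉ S) :
    ∃ H : ℝ, ∀ m : ℕ, 1 ≤ m → ∃ A : Finset (ℤ × ℤ),
      (∀ z ∈ A, Short {2} H (S.card + 1) z.1 ∧ Short {2} H (S.card + 1) z.2) ∧
      A.card = m ^ (S.card + 1) ∧ (proj (-1) A).card = m ^ (S.card + 1) ∧
      big S A ≤ m ^ S.card := by
  classical
  let g : ℚ → ℝ := fun r => |((Pool.Agent.TH539.MQ.kv r).1 : ℝ)| +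
    |((Pool.Agent.TH539.MQ.kv r).2 : ℝ)|
  have hg0 : ∀ r ∈ S, 0 ≤ g r := fun r _ => add_nonneg (abs_nonneg _) (abs_nonneg _)
  have hsum : 0 ≤ ∑ r ∈ S, g r := Finset.sum_nonneg hg0
  refine ⟨∑ r ∈ S, g r + 1, fun m hm => ?_⟩
  obtain ⟨A, h1, h2, h3, h4, h5⟩ := Pool.Agent.TH539.MQ.sharp0 m hm S hS
  have hle : ∀ r ∈ S, g r ≤ ∑ r ∈ S, g r + 1 := fun r hr => by
    have := Finset.single_le_sum hg0 hr
    linarith
  refine ⟨A, fun z hz => ?_, ?_, h2, ?_⟩
  · obtain ⟨e, f, h6, h7⟩ := h5 z hz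
    constructor
    · refine short_two S _ (by linarith) (fun r => (Pool.Agent.TH539.MQ.kv r).1) ?_ 1 ?_ e f _ ?_
      · intro r hr
        refine le_trans ?_ (hle r hr)
        simp only [g]
        linarith [abs_nonneg ((Pool.Agent.TH539.MQ.kv r).2 : ℝ)]
      · simpa using hsum
      · rw [h6, one_mul]
    · refine short_two S _ (by linarith) (fun r => (Pool.Agent.TH539.MQ.kv r).2) ?_ 0 ?_ e f _ ?_
      · intro r hr
        refine le_trans ?_ (hle r hr)
        simp only [g]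
        linarith [abs_nonneg ((Pool.Agent.TH539.MQ.kv r).1 : ℝ)]
      · rw [Int.cast_zero, abs_zero]
        linarith
      · rw [h7, zero_mul, zero_add]
  · refine le_antisymm h1 ?_
    rw [← h2]
    exact Finset.card_image_le
  · exact max_le h3 (Finset.sup_le fun r hr => h4 r hr)

theorem result :
    -- the inequality, for all slopes
    (∀ P : Finset ℕ, (∀ p ∈ P, p.Prime) → ∀ (k : ℕ) (S : Finset ℚ),
      ∃ C : ℕ, ∀ (H : ℝ) (A : Finset (ℤ × ℤ)), 1 ≤ H → A.Nonempty →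
        (∀ z ∈ A, Short P H k z.1 ∧ Short P H k z.2) →
        (A.card : ℝ) ^ S.card ≤
          C * H ^ C * ((projInf A).card * ∏ r ∈ S, ((proj r A).card : ℝ))) ∧
    -- the inequality of the conjecture
    (∀ P : Finset ℕ, (∀ p ∈ P, p.Prime) → ∀ (k : ℕ) (H₀ ε : ℝ), 0 < ε →
      ∃ (S : Finset ℚ) (δ : ℝ), (-1 : ℚ) ∉ S ∧ 0 < δ ∧ ∀ A : Finset (ℤ × ℤ),
        (∀ z ∈ A, Short P (H₀ * (A.card : ℝ) ^ δ) k z.1 ∧
          Short P (H₀ * (A.card : ℝ) ^ δ) k z.2) →
        ((proj (-1) A).card : ℝ) ≤ A.card ∧ (A.card : ℝ) ≤ (big S A : ℝ) ^ (1 + ε)) ∧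
    -- for every set of slopes the exponent `1 + 1 / |S|` given by the inequality is optimal
    (∀ S : Finset ℚ, (-1 : ℚ) ∉ S → ∃ H : ℝ, ∀ m : ℕ, 1 ≤ m → ∃ A : Finset (ℤ × ℤ),
      (∀ z ∈ A, Short {2} H (S.card + 1) z.1 ∧ Short {2} H (S.card + 1) z.2) ∧
      A.card = m ^ (S.card + 1) ∧ (proj (-1) A).card = m ^ (S.card + 1) ∧
      big S A ≤ m ^ S.card) :=
  ⟨part1, part2, part3⟩

end Pool.Agent.Results.MP_169869_co.MultiplicativeSets
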