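import Mathlib
import Pool.Agent.TH539.StrProjMain
import Pool.Agent.TH539.StrProjSharp

set_option autoImplicit false

/-! # The arithmetic Kakeya conjecture for sets with additively structured projections

The set `A ⊆ ℤ × ℤ` is arbitrary; each of its projections `π_r(A)`, `r ∈ S ∪ {∞}`, is assumed to be
covered by few sets of small doubling, which may be different and unrelated for different `r`. -/

open Finset
open scoped Pointwise

namespace Pool.Agent.Results.MP_169869_co.StructuredProjections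

/-- the projection `π_r(A) = {x + r y : (x, y) ∈ A}` -/
def proj (r : ℚ) (A : Finset (ℤ × ℤ)) : Finset ℚ :=
  A.image (fun p : ℤ × ℤ => (p.1 : ℚ) + r * (p.2 : ℚ))

/-- the projection `π_∞(A) = {y : (x, y) ∈ A}` -/
def projInf (A : Finset (ℤ × ℤ)) : Finset ℚ := A.image (fun p : ℤ × ℤ => (p.2 : ℚ))

/-- the largest size of a projection of `A` with slope `∞` or in `S` -/
def big (S : Finset ℚ) (A : Finset (ℤ × ℤ)) : ℕ :=
  max (projInf A).card (S.sup fun r => (proj r A).card)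

/-- `P` is covered by at most `L` finite sets `D` of rational numbers with `|D + D| ≤ K |D|` and
`|D| ≤ M`. -/
def Structured (K L M : ℝ) (P : Finset ℚ) : Prop :=
  ∃ 𝒟 : Finset (Finset ℚ), (𝒟.card : ℝ) ≤ L ∧
    (∀ D ∈ 𝒟, ((D + D).card : ℝ) ≤ K * D.card ∧ (D.card : ℝ) ≤ M) ∧
    ∀ x ∈ P, ∃ D ∈ 𝒟, x ∈ D

theorem result :
    -- the inequality
    (∀ S : Finset ℚ, (-1 : ℚ) ∉ S → ∃ C : ℕ, ∀ A : Finset (ℤ × ℤ), A.Nonempty → ∀ K L M : ℝ,
      Structured K L M (projInf A) → (∀ r ∈ S, Structured K L M (proj r A)) →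
      ((proj (-1) A).card : ℝ) ^ S.card ≤ (K * L) ^ C * M ^ (S.card + 1)) ∧
    -- the inequality of the conjecture
    (∀ ε : ℝ, 0 < ε → ∀ S : Finset ℚ, (-1 : ℚ) ∉ S → 1 / ε < S.card → ∃ δ : ℝ, 0 < δ ∧
      ∀ A : Finset (ℤ × ℤ),
      Structured ((big S A : ℝ) ^ δ) ((big S A : ℝ) ^ δ) ((big S A : ℝ) ^ (1 + δ)) (projInf A) →
      (∀ r ∈ S, Structured ((big S A : ℝ) ^ δ) ((big S A : ℝ) ^ δ)
        ((big S A : ℝ) ^ (1 + δ)) (proj r A)) →
      ((proj (-1) A).card : ℝ) ≤ (big S A : ℝ) ^ (1 + ε)) ∧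
    -- the exponents are best possible
    (∀ S : Finset ℚ, (-1 : ℚ) ∉ S → ∀ m : ℕ, 1 ≤ m → ∃ A : Finset (ℤ × ℤ), A.Nonempty ∧
      (proj (-1) A).card = m ^ (S.card + 1) ∧
      (projInf A).card ≤ m ^ S.card ∧ (∀ r ∈ S, (proj r A).card ≤ m ^ S.card) ∧
      (projInf A + projInf A).card ≤ 2 ^ (S.card + 1) * (projInf A).card ∧
      ∀ r ∈ S, (proj r A + proj r A).card ≤ 2 ^ (S.card + 1) * (proj r A).card) :=
  ⟨Pool.Agent.TH539.StrProj.main1, Pool.Agent.TH539.StrProj.main2,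
    Pool.Agent.TH539.StrProj.main3⟩

end Pool.Agent.Results.MP_169869_co.StructuredProjections
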