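import Mathlib
import Pool.Agent.TH861.HB.Base
import Pool.Agent.TH861.HB.Kakeya
import Pool.Agent.TH861.HB.KakeyaMain

set_option autoImplicit false

open Pool.Agent.TH861.HB

namespace Pool.Agent.Results.MP_169869_co.WeightedProduct

/-- Duality for the arithmetic Kakeya problem. For a finite set S of slopes (none = ∞) without the slope -1 and
α ≥ 0, the bound |π_{-1}(A)| ≤ max_{r ∈ S} |π_r(A)|^α for all finite nonempty A ⊂ ℤ × ℤ holds if and only if
there are weights 0 ≤ w_r ≤ α - 1 with sum α such that |π_{-1}(A)| ≤ ∏_{r ∈ S} |π_r(A)|^(w_r) for all finite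
nonempty A. -/
theorem result (S : Finset (Option ℚ)) (hS : some (-1) ∉ S) (α : ℝ) (hα : 0 ≤ α) :
    (∀ A : Finset (ℤ × ℤ), A.Nonempty → ∃ r ∈ S,
      ((proj (some (-1)) A).card : ℝ) ≤ ((proj r A).card : ℝ) ^ α) ↔
    ∃ w : Option ℚ → ℝ, (∀ r ∈ S, 0 ≤ w r ∧ w r ≤ α - 1) ∧ ∑ r ∈ S, w r = α ∧
      ∀ A : Finset (ℤ × ℤ), A.Nonempty →
        ((proj (some (-1)) A).card : ℝ) ≤ ∏ r ∈ S, ((proj r A).card : ℝ) ^ w r :=
  kakeya_duality S hS α hα

end Pool.Agent.Results.MP_169869_co.WeightedProduct
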